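import Mathlib

/-!
# A decision tree lemma for sets with coordinates of countable support
-/

open Set

namespace Q176.NF

open Classical in
/-- The cell of `x` for the finite set `F` of coordinates. -/
def cell {S Λ V : Type*} (c : S → Λ → V) (F : Finset Λ) (x : S) : Set S :=
  {y | ∀ l ∈ F, c y l = c x l}

theorem mem_cell_self {S Λ V : Type*} (c : S → Λ → V) (F : Finset Λ) (x : S) : x ∈ cell c F x :=
  fun _ _ => rfl

theorem cell_congr {S Λ V : Type*} {c : S → Λ → V} {F : Finset Λ} {x y : S}
    (h : ∀ l ∈ F, c y l = c x l) : cell c F y = cell c F x := by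
  ext z
  constructor
  · intro hz l hl
    rw [hz l hl, h l hl]
  · intro hz l hl
    rw [hz l hl, h l hl]

open Classical in
/-- The chosen points of a cell. -/
noncomputable def wset {S : Type*} (H : Bool → Set S) (C : Set S) : Finset S :=
  (if h : (C ∩ H false).Nonempty then {h.some} else ∅) ∪
    (if h : (C ∩ H true).Nonempty then {h.some} else ∅)

theorem exists_mem_wset {S : Type*} (H : Bool → Set S) {C : Set S} {j : Bool}
    (h : (C ∩ H j).Nonempty) : ∃ s ∈ wset H C, s ∈ C ∧ s ∈ H j := by
  classical
  refine ⟨h.some, ?_, h.some_mem.1, h.some_mem.2⟩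
  cases j with
  | false => simp [wset, h]
  | true => simp [wset, h]

open Classical in
/-- The states of the decision procedure. -/
noncomputable def st {S Λ V : Type*} (c : S → Λ → V) (H : Bool → Set S)
    (en : S → ℕ → Finset Λ) : ℕ → S → Finset Λ × Finset S
  | 0, _ => (∅, ∅)
  | n + 1, x =>
    ((st c H en n x).1 ∪ ((st c H en n x).2 ∪ wset H (cell c (st c H en n x).1 x)).biUnion
        (fun s => (Finset.range (n + 1)).biUnion (en s)),
      (st c H en n x).2 ∪ wset H (cell c (st c H en n x).1 x))

section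

variable {S Λ V : Type*} (c : S → Λ → V) (H : Bool → Set S) (en : S → ℕ → Finset Λ)

theorem st_one_mono_succ (n : ℕ) (x : S) : (st c H en n x).1 ⊆ (st c H en (n + 1) x).1 := by
  classical
  intro l hl
  simp only [st, Finset.mem_union]
  exact Or.inl hl

theorem st_two_mono_succ (n : ℕ) (x : S) : (st c H en n x).2 ⊆ (st c H en (n + 1) x).2 := by
  classical
  intro l hl
  simp only [st, Finset.mem_union]
  exact Or.inl hl

theorem st_one_mono {m n : ℕ} (h : m ≤ n) (x : S) :
    (st c H en m x).1 ⊆ (st c H en n x).1 :=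
  monotone_nat_of_le_succ (f := fun n => (st c H en n x).1)
    (fun n => st_one_mono_succ c H en n x) h

theorem st_two_mono {m n : ℕ} (h : m ≤ n) (x : S) :
    (st c H en m x).2 ⊆ (st c H en n x).2 :=
  monotone_nat_of_le_succ (f := fun n => (st c H en n x).2)
    (fun n => st_two_mono_succ c H en n x) h

theorem st_congr : ∀ (n : ℕ) (x y : S), (∀ l ∈ (st c H en n x).1, c y l = c x l) →
    st c H en n y = st c H en n x := by
  intro n
  induction n with
  | zero => intro x y _; rfl
  | succ n ih =>
    intro x y h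
    have h1 : ∀ l ∈ (st c H en n x).1, c y l = c x l := fun l hl =>
      h l (st_one_mono_succ c H en n x hl)
    have h2 := ih x y h1
    have h3 : cell c (st c H en n y).1 y = cell c (st c H en n x).1 x := by
      rw [h2]
      exact cell_congr h1
    simp only [st, h2]
    rw [h2] at h3
    rw [h3]

theorem en_subset {n m k : ℕ} (hm : m ≤ n) (hk : k ≤ n) (x : S) {s : S}
    (hs : s ∈ wset H (cell c (st c H en m x).1 x)) : en s k ⊆ (st c H en (n + 1) x).1 := by
  classical
  intro l hl
  have h1 : s ∈ (st c H en (n + 1) x).2 := by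
    refine st_two_mono c H en (Nat.succ_le_succ hm) x ?_
    simp only [st, Finset.mem_union]
    exact Or.inr hs
  simp only [st] at h1 ⊢
  refine Finset.mem_union_right _ (Finset.mem_biUnion.2 ⟨s, h1, ?_⟩)
  exact Finset.mem_biUnion.2 ⟨k, Finset.mem_range.2 (Nat.lt_succ_of_le hk), hl⟩

/-- The decision tree lemma. -/
theorem tree
    (hyp : ∀ (x : S) (F : ℕ → Finset Λ) (h : Bool → ℕ → S), Monotone F →
      (∀ j n, h j n ∈ H j) → (∀ j n, ∀ l ∈ F n, c (h j n) l = c x l) →
      (∀ j m k, ∀ l ∈ en (h j m) k, ∃ n, l ∈ F n) → False) :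
    ∃ (K : S → Finset Λ) (i : S → Bool),
      (∀ x y, (∀ l ∈ K x, c y l = c x l) → K y = K x ∧ i y = i x) ∧
      (∀ x, ∀ y ∈ H (!(i x)), ∃ l ∈ K x, c y l ≠ c x l) := by
  classical
  have key : ∀ x, ∃ n, ∃ j, ¬ (cell c (st c H en n x).1 x ∩ H j).Nonempty := by
    intro x
    by_contra hcon
    push Not at hcon
    have h1 : ∀ j n, ∃ s ∈ wset H (cell c (st c H en n x).1 x),
        s ∈ cell c (st c H en n x).1 x ∧ s ∈ H j := fun j n =>
      exists_mem_wset H (hcon n j)
    choose h hw hc hH using h1
    refine hyp x (fun n => (st c H en n x).1) h (fun m n hmn => st_one_mono c H en hmn x) hH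
      (fun j n l hl => hc j n l hl) ?_
    intro j m k l hl
    exact ⟨max m k + 1, en_subset c H en (le_max_left m k) (le_max_right m k) x (hw j m) hl⟩
  let P : ℕ → S → Prop := fun n x => ∃ j, ¬ (cell c (st c H en n x).1 x ∩ H j).Nonempty
  have hP : ∀ x, ∃ n, P n x := key
  let N : S → ℕ := fun x => Nat.find (hP x)
  have hN : ∀ x, P (N x) x := fun x => Nat.find_spec (hP x)
  have hcong : ∀ n x y, (∀ l ∈ (st c H en n x).1, c y l = c x l) → (P n y ↔ P n x) := by
    intro n x y h
    have h1 := st_congr c H en n x y h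
    have h2 : cell c (st c H en n y).1 y = cell c (st c H en n x).1 x := by
      rw [h1]; exact cell_congr h
    simp only [P, h2]
  have hNeq : ∀ x y, (∀ l ∈ (st c H en (N x) x).1, c y l = c x l) → N y = N x := by
    intro x y h
    have h1 : N y ≤ N x := Nat.find_min' (hP y) ((hcong _ x y h).2 (hN x))
    have h2 := st_congr c H en (N x) x y h
    refine le_antisymm h1 (Nat.find_min' (hP x) ?_)
    refine (hcong (N y) y x ?_).2 (hN y)
    intro l hl
    have h3 : l ∈ (st c H en (N x) y).1 := st_one_mono c H en h1 y hl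
    rw [h2] at h3
    exact (h l h3).symm
  refine ⟨fun x => (st c H en (N x) x).1,
    fun x => if (cell c (st c H en (N x) x).1 x ∩ H false).Nonempty then false else true, ?_, ?_⟩
  · intro x y h
    have h1 := hNeq x y h
    have h2 := st_congr c H en (N x) x y h
    have h3 : cell c (st c H en (N x) y).1 y = cell c (st c H en (N x) x).1 x := by
      rw [h2]; exact cell_congr h
    constructor
    · simp only [h1, h2]
    · simp only [h1, h3]
  · intro x y hy
    by_contra hcon
    push Not at hcon
    have hyc : y ∈ cell c (st c H en (N x) x).1 x := fun l hl => hcon l hl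
    obtain ⟨j, hj⟩ := hN x
    by_cases h0 : (cell c (st c H en (N x) x).1 x ∩ H false).Nonempty
    · simp only [h0, if_true, Bool.not_false] at hy
      cases j with
      | false => exact hj h0
      | true => exact hj ⟨y, hyc, hy⟩
    · simp only [h0, if_false, Bool.not_true] at hy
      exact h0 ⟨y, hyc, hy⟩

end

/-- A countable set is covered by a sequence of finite sets. -/
theorem exists_en {α : Type*} {A : Set α} (hA : A.Countable) :
    ∃ f : ℕ → Finset α, ∀ a ∈ A, ∃ k, a ∈ f k := by
  classical
  rcases A.eq_empty_or_nonempty with h | h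
  · exact ⟨fun _ => ∅, by simp [h]⟩
  · obtain ⟨f, hf⟩ := hA.exists_eq_range h
    refine ⟨fun k => {f k}, fun a ha => ?_⟩
    rw [hf] at ha
    obtain ⟨k, rfl⟩ := ha
    exact ⟨k, by simp⟩

end Q176.NF
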