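import Mathlib
import Pool.Agent.Q176.NF.Tree

/-!
# A plank-like space and a normal dense subspace of its product with a power of a discrete space
-/

open Set Filter Topology

namespace Q176.NF

/-- The points of the factor: isolated points `(a, b)`, points `(a, ∞)` and points `(∞, b)`. -/
inductive Pt (I E : Type*)
  | iso (a : E) (b : Finset I)
  | top (a : E)
  | side (b : Finset I)

namespace Pt

variable {I E : Type*}

/-- Basic neighbourhoods of a point. -/
def Near (F : Finset I) (G : Finset E) : Pt I E → Pt I E → Prop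
  | top a, z => z = top a ∨ ∃ b, F ⊆ b ∧ z = iso a b
  | iso a b, z => z = iso a b
  | side b, z => z = side b ∨ ∃ a, a ∉ G ∧ z = iso a b

theorem near_self (F : Finset I) (G : Finset E) (z : Pt I E) : Near F G z z := by
  cases z with
  | iso a b => rfl
  | top a => exact Or.inl rfl
  | side b => exact Or.inl rfl

theorem near_mono {F F' : Finset I} {G G' : Finset E} (hF : F ⊆ F') (hG : G ⊆ G') {z y : Pt I E}
    (h : Near F' G' z y) : Near F G z y := by
  cases z with
  | iso a b => exact h
  | top a =>
    rcases h with h | ⟨b, hb, h⟩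
    · exact Or.inl h
    · exact Or.inr ⟨b, hF.trans hb, h⟩
  | side b =>
    rcases h with h | ⟨a, ha, h⟩
    · exact Or.inl h
    · exact Or.inr ⟨a, fun hc => ha (hG hc), h⟩

open Classical in
instance : TopologicalSpace (Pt I E) where
  IsOpen U := ∀ z ∈ U, ∃ F G, ∀ y, Near F G z y → y ∈ U
  isOpen_univ := fun _ _ => ⟨∅, ∅, fun _ _ => mem_univ _⟩
  isOpen_inter := by
    intro s t hs ht z hz
    obtain ⟨F, G, h1⟩ := hs z hz.1
    obtain ⟨F', G', h2⟩ := ht z hz.2
    exact ⟨F ∪ F', G ∪ G', fun y hy =>
      ⟨h1 y (near_mono Finset.subset_union_left Finset.subset_union_left hy),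
        h2 y (near_mono Finset.subset_union_right Finset.subset_union_right hy)⟩⟩
  isOpen_sUnion := by
    intro s hs z hz
    obtain ⟨t, ht, hzt⟩ := hz
    obtain ⟨F, G, h⟩ := hs t ht z hzt
    exact ⟨F, G, fun y hy => ⟨t, ht, h y hy⟩⟩

theorem isOpen_iff {U : Set (Pt I E)} :
    IsOpen U ↔ ∀ z ∈ U, ∃ F G, ∀ y, Near F G z y → y ∈ U := Iff.rfl

theorem isOpen_near (F : Finset I) (G : Finset E) (z : Pt I E) : IsOpen {y | Near F G z y} := by
  rw [isOpen_iff]
  intro y hy
  cases z with
  | iso a b =>
    have hy' : y = iso a b := hy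
    subst hy'
    exact ⟨∅, ∅, fun y' hy' => hy'⟩
  | top a =>
    rcases hy with hy | ⟨b, hb, hy⟩
    · subst hy
      exact ⟨F, G, fun y' hy' => hy'⟩
    · subst hy
      exact ⟨∅, ∅, fun y' hy' => Or.inr ⟨b, hb, hy'⟩⟩
  | side b =>
    rcases hy with hy | ⟨a, ha, hy⟩
    · subst hy
      exact ⟨F, G, fun y' hy' => hy'⟩
    · subst hy
      exact ⟨∅, ∅, fun y' hy' => Or.inr ⟨a, ha, hy'⟩⟩

theorem isClosed_near (F : Finset I) (G : Finset E) [Infinite I] (z : Pt I E) :
    IsClosed {y | Near F G z y} := by
  classical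
  rw [← isOpen_compl_iff, isOpen_iff]
  intro y hy
  have hy1 : ¬ Near F G z y := hy
  cases z with
  | iso a b =>
    cases y with
    | iso a' b' => exact ⟨∅, ∅, fun y' hy' => by rw [show y' = iso a' b' from hy']; exact hy1⟩
    | top a' =>
      obtain ⟨i, hi⟩ := Infinite.exists_notMem_finset b
      refine ⟨insert i b, ∅, fun y' hy' => ?_⟩
      rcases hy' with rfl | ⟨b', hb', rfl⟩
      · exact hy1
      · intro hc
        have h1 : iso a' b' = iso a b := hc
        injection h1 with h2 h3
        subst h3
        exact hi (hb' (Finset.mem_insert_self _ _))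
    | side b' =>
      refine ⟨∅, {a}, fun y' hy' => ?_⟩
      rcases hy' with rfl | ⟨a', ha', rfl⟩
      · exact hy1
      · intro hc
        have h1 : iso a' b' = iso a b := hc
        injection h1 with h2 h3
        exact ha' (Finset.mem_singleton.2 h2)
  | top a =>
    cases y with
    | iso a' b' => exact ⟨∅, ∅, fun y' hy' => by rw [show y' = iso a' b' from hy']; exact hy1⟩
    | top a' =>
      refine ⟨∅, ∅, fun y' hy' => ?_⟩
      rcases hy' with rfl | ⟨b', hb', rfl⟩
      · exact hy1
      · intro hc
        rcases hc with hc | ⟨b, hb, hc⟩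
        · exact absurd hc (by simp)
        · injection hc with h2 h3
          subst h2
          exact hy1 (Or.inl rfl)
    | side b' =>
      refine ⟨∅, {a}, fun y' hy' => ?_⟩
      rcases hy' with rfl | ⟨a', ha', rfl⟩
      · exact hy1
      · intro hc
        rcases hc with hc | ⟨b, hb, hc⟩
        · exact absurd hc (by simp)
        · injection hc with h2 h3
          exact ha' (Finset.mem_singleton.2 h2)
  | side b =>
    cases y with
    | iso a' b' => exact ⟨∅, ∅, fun y' hy' => by rw [show y' = iso a' b' from hy']; exact hy1⟩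
    | top a' =>
      obtain ⟨i, hi⟩ := Infinite.exists_notMem_finset b
      refine ⟨insert i b, ∅, fun y' hy' => ?_⟩
      rcases hy' with rfl | ⟨b', hb', rfl⟩
      · exact hy1
      · intro hc
        rcases hc with hc | ⟨a, ha, hc⟩
        · exact absurd hc (by simp)
        · injection hc with h2 h3
          subst h3
          exact hi (hb' (Finset.mem_insert_self _ _))
    | side b' =>
      refine ⟨∅, ∅, fun y' hy' => ?_⟩
      rcases hy' with rfl | ⟨a', ha', rfl⟩
      · exact hy1
      · intro hc
        rcases hc with hc | ⟨a, ha, hc⟩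
        · exact absurd hc (by simp)
        · injection hc with h2 h3
          subst h3
          exact hy1 (Or.inl rfl)

instance [Infinite I] : T2Space (Pt I E) := by
  classical
  refine ⟨fun x y hxy => ?_⟩
  by_cases h : ∃ F G, ¬ Near F G x y
  · obtain ⟨F, G, h⟩ := h
    exact ⟨_, _, isOpen_near F G x, (isClosed_near F G x).isOpen_compl, near_self F G x, h,
      disjoint_compl_right⟩
  · push Not at h
    exfalso
    cases x with
    | iso a b => exact hxy (h ∅ ∅).symm
    | top a =>
      rcases h ∅ ∅ with h1 | ⟨b, hb, h1⟩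
      · exact hxy h1.symm
      · subst h1
        obtain ⟨i, hi⟩ := Infinite.exists_notMem_finset b
        rcases h {i} ∅ with h2 | ⟨b', hb', h2⟩
        · exact absurd h2 (by simp)
        · injection h2 with h3 h4
          subst h4
          exact hi (hb' (Finset.mem_singleton_self _))
    | side b =>
      rcases h ∅ ∅ with h1 | ⟨a, ha, h1⟩
      · exact hxy h1.symm
      · subst h1
        rcases h ∅ {a} with h2 | ⟨a', ha', h2⟩
        · exact absurd h2 (by simp)
        · injection h2 with h3 h4
          subst h3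
          exact ha' (Finset.mem_singleton_self _)

instance [Infinite I] : CompletelyRegularSpace (Pt I E) := by
  classical
  refine ⟨fun x K hK hx => ?_⟩
  obtain ⟨F, G, h⟩ := isOpen_iff.1 hK.isOpen_compl x hx
  have hcl : IsClopen {y | Near F G x y} := ⟨isClosed_near F G x, isOpen_near F G x⟩
  refine ⟨fun y => if y ∈ {y | Near F G x y} then 0 else 1, ?_, ?_, ?_⟩
  · refine IsLocallyConstant.continuous ?_
    rw [IsLocallyConstant.iff_eventually_eq]
    intro y
    by_cases hy : y ∈ {y | Near F G x y}
    · filter_upwards [hcl.2.mem_nhds hy] with z hz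
      exact (if_pos hz).trans (if_pos hy).symm
    · filter_upwards [hcl.compl.2.mem_nhds hy] with z hz
      exact (if_neg hz).trans (if_neg hy).symm
  · exact if_pos (near_self F G x)
  · intro y hy
    exact if_neg (fun hc => h y hc hy)

/-- The factor is not normal. -/
theorem not_normalSpace (hIE : ∀ f : Finset I → Finset E, ∃ a, ∀ b, a ∉ f b) :
    ¬ NormalSpace (Pt I E) := by
  classical
  intro hN
  have h1 : IsClosed (range (top : E → Pt I E)) := by
    rw [← isOpen_compl_iff, isOpen_iff]
    intro y hy
    cases y with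
    | iso a' b' => exact ⟨∅, ∅, fun y' hy' => by rw [show y' = iso a' b' from hy']; exact hy⟩
    | top a' => exact absurd (mem_range_self a') hy
    | side b' =>
      refine ⟨∅, ∅, fun y' hy' => ?_⟩
      rcases hy' with rfl | ⟨a', ha', rfl⟩
      · exact hy
      · rintro ⟨a, ha⟩
        exact absurd ha (by simp)
  have h2 : IsClosed (range (side : Finset I → Pt I E)) := by
    rw [← isOpen_compl_iff, isOpen_iff]
    intro y hy
    cases y with
    | iso a' b' => exact ⟨∅, ∅, fun y' hy' => by rw [show y' = iso a' b' from hy']; exact hy⟩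
    | side b' => exact absurd (mem_range_self b') hy
    | top a' =>
      refine ⟨∅, ∅, fun y' hy' => ?_⟩
      rcases hy' with rfl | ⟨b', hb', rfl⟩
      · exact hy
      · rintro ⟨a, ha⟩
        exact absurd ha (by simp)
  have h3 : Disjoint (range (top : E → Pt I E)) (range (side : Finset I → Pt I E)) := by
    rw [Set.disjoint_left]
    rintro _ ⟨a, rfl⟩ ⟨b, hb⟩
    exact absurd hb (by simp)
  obtain ⟨U, V, hU, hV, hUt, hVs, hUV⟩ := hN.normal _ _ h1 h2 h3
  have h4 : ∀ b : Finset I, ∃ G : Finset E, ∀ a, a ∉ G → iso a b ∈ V := by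
    intro b
    obtain ⟨F, G, h⟩ := isOpen_iff.1 hV (side b) (hVs (mem_range_self b))
    exact ⟨G, fun a ha => h _ (Or.inr ⟨a, ha, rfl⟩)⟩
  choose f hf using h4
  obtain ⟨a, ha⟩ := hIE f
  obtain ⟨F, G, h⟩ := isOpen_iff.1 hU (top a) (hUt (mem_range_self a))
  exact Set.disjoint_left.1 hUV (h (iso a F) (Or.inr ⟨F, Finset.Subset.refl _, rfl⟩)) (hf F a (ha F))

end Pt

end Q176.NF
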