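import Mathlib
import Pool.Agent.Q176.NF.Space

/-!
# The dense subspace is normal
-/

open Set Filter Topology

namespace Q176.NF

open Pt

variable {I E : Type*}

/-- The base value of the `Σ`-product over a point of the plank. -/
def base (o : E) : Pt I E → E
  | Pt.iso _ _ => o
  | Pt.top a => a
  | Pt.side _ => o

/-- The dense subspace. -/
def Good (o : E) : Set (Pt I E × (I → E)) := {p | {i | p.2 i ≠ base o p.1}.Countable}

section top

variable [TopologicalSpace E] [DiscreteTopology E] (o : E)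

theorem isOpen_iff_near {s : Set (Good (I := I) o)} :
    IsOpen s ↔ ∀ x ∈ s, ∃ (F : Finset I) (G : Finset E), ∀ y : Good (I := I) o,
      Near F G x.1.1 y.1.1 → (∀ i ∈ F, y.1.2 i = x.1.2 i) → y ∈ s := by
  classical
  constructor
  · intro hs x hx
    obtain ⟨t, ht, hts⟩ := isOpen_induced_iff.1 hs
    have hxt : x.1 ∈ t := by
      have : x ∈ Subtype.val ⁻¹' t := by rw [hts]; exact hx
      exact this
    obtain ⟨U, V, hU, hV, hxU, hxV, hUV⟩ := isOpen_prod_iff.1 ht x.1.1 x.1.2 hxt
    obtain ⟨F0, G, h1⟩ := Pt.isOpen_iff.1 hU _ hxU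
    obtain ⟨F1, u, hu, hF1⟩ := isOpen_pi_iff.1 hV _ hxV
    refine ⟨F0 ∪ F1, G, fun y hy1 hy2 => ?_⟩
    have h2 : y.1 ∈ t := by
      refine hUV ⟨?_, ?_⟩
      · exact h1 _ (near_mono Finset.subset_union_left (Finset.Subset.refl _) hy1)
      · refine hF1 fun i hi => ?_
        rw [hy2 i (Finset.mem_union_right _ hi)]
        exact (hu i hi).2
    have h3 : y ∈ Subtype.val ⁻¹' t := h2
    rw [hts] at h3
    exact h3
  · intro h
    rw [isOpen_iff_mem_nhds]
    intro x hx
    obtain ⟨F, G, h1⟩ := h x hx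
    have hU : IsOpen {p : Pt I E × (I → E) | Near F G x.1.1 p.1 ∧ ∀ i ∈ F, p.2 i = x.1.2 i} := by
      have h2 : {p : Pt I E × (I → E) | Near F G x.1.1 p.1 ∧ ∀ i ∈ F, p.2 i = x.1.2 i} =
          {y | Near F G x.1.1 y} ×ˢ (⋂ i ∈ F, {e : I → E | e i = x.1.2 i}) := by
        ext p
        simp
      rw [h2]
      refine (isOpen_near F G x.1.1).prod ?_
      refine isOpen_biInter_finset fun i _ => ?_
      exact (isOpen_discrete ({x.1.2 i} : Set E)).preimage (continuous_apply (A := fun _ => E) i)
    have h3 : Subtype.val ⁻¹' {p : Pt I E × (I → E) | Near F G x.1.1 p.1 ∧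
        ∀ i ∈ F, p.2 i = x.1.2 i} ∈ 𝓝 x :=
      (hU.preimage continuous_subtype_val).mem_nhds ⟨near_self F G _, fun _ _ => rfl⟩
    filter_upwards [h3] with y hy
    exact h1 y hy.1 hy.2

/-- Points over `(a, ∞)`. -/
abbrev St (I : Type*) {E : Type*} (a : E) := {e : I → E // {i | e i ≠ a}.Countable}

/-- The point of the dense subspace over `(a, ∞)`. -/
def mkTop {a : E} (e : St I a) : Good (I := I) o := ⟨(Pt.top a, e.1), e.2⟩

/-- Points over `(·, b)`. -/
abbrev Sb (I : Type*) {E : Type*} (o : E) := Option E × {e : I → E // {i | e i ≠ o}.Countable}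

/-- The point of the dense subspace over `(·, b)`. -/
def mkSide (b : Finset I) : Sb I o → Good (I := I) o
  | (none, e) => ⟨(Pt.side b, e.1), e.2⟩
  | (some a, e) => ⟨(Pt.iso a b, e.1), e.2⟩

/-- The closed sets to be separated. -/
structure Pair (o : E) where
  H : Bool → Set (Good (I := I) o)
  closed : ∀ j, IsClosed (H j)
  disj : ∀ x, x ∈ H false → x ∈ H true → False

variable {o}

theorem Pair.notBoth (P : Pair (I := I) o) {x : Good (I := I) o} {j : Bool} (h1 : x ∈ P.H j)
    (h2 : x ∈ P.H (!j)) : False := by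
  cases j with
  | false => exact P.disj x h1 h2
  | true => exact P.disj x h2 h1

theorem Pair.mem_of_near (P : Pair (I := I) o) {x : Good (I := I) o} {j : Bool}
    (h : ∀ (F : Finset I) (G : Finset E), ∃ y ∈ P.H j, Near F G x.1.1 y.1.1 ∧
      ∀ i ∈ F, y.1.2 i = x.1.2 i) : x ∈ P.H j := by
  by_contra hx
  obtain ⟨F, G, h1⟩ := (isOpen_iff_near o).1 (P.closed j).isOpen_compl x hx
  obtain ⟨y, hy, hn, he⟩ := h F G
  exact h1 y hn he hy

/-- The decision tree over `(a, ∞)`. -/
theorem Pair.treeTop (P : Pair (I := I) o) (a : E) :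
    ∃ (K : St I a → Finset I) (i : St I a → Bool),
      (∀ x y, (∀ l ∈ K x, y.1 l = x.1 l) → K y = K x ∧ i y = i x) ∧
      (∀ x (y : St I a), mkTop o y ∈ P.H (!(i x)) → ∃ l ∈ K x, y.1 l ≠ x.1 l) := by
  classical
  have hen : ∀ e : St I a, ∃ f : ℕ → Finset I, ∀ i ∈ {i | e.1 i ≠ a}, ∃ k, i ∈ f k := fun e =>
    exists_en e.2
  choose en hen using hen
  have hyp : ∀ (x : St I a) (F : ℕ → Finset I) (h : Bool → ℕ → St I a), Monotone F →
      (∀ j n, mkTop o (h j n) ∈ P.H j) → (∀ j n, ∀ l ∈ F n, (h j n).1 l = x.1 l) →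
      (∀ j m k, ∀ l ∈ en (h j m) k, ∃ n, l ∈ F n) → False := by
    intro x F h hF hH hc hs
    let e : I → E := fun i => if ∃ n, i ∈ F n then x.1 i else a
    have he : {i | e i ≠ a}.Countable := by
      refine x.2.mono fun i hi => ?_
      by_cases hi' : ∃ n, i ∈ F n
      · have h1 : e i ≠ a := hi
        simp only [e, hi', if_true] at h1
        exact h1
      · exact (hi (by simp only [e, hi', if_false])).elim
    have key : ∀ j, mkTop o ⟨e, he⟩ ∈ P.H j := by
      intro j
      refine P.mem_of_near fun F' G' => ?_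
      have h3 : ∀ i ∈ F', ∃ n, (∃ m, i ∈ F m) → i ∈ F n := by
        intro i _
        by_cases hi : ∃ m, i ∈ F m
        · obtain ⟨m, hm⟩ := hi
          exact ⟨m, fun _ => hm⟩
        · exact ⟨0, fun h => (hi h).elim⟩
      choose! n hn using h3
      let N := F'.sup n
      refine ⟨mkTop o (h j N), hH j N, Or.inl rfl, fun i hi => ?_⟩
      show (h j N).1 i = e i
      by_cases hi' : ∃ m, i ∈ F m
      · have h4 : i ∈ F N := hF (Finset.le_sup hi) (hn i hi hi')
        simp only [e, hi', if_true]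
        exact hc j N i h4
      · simp only [e, hi', if_false]
        by_contra hne
        obtain ⟨k, hk⟩ := hen (h j N) i hne
        exact hi' (hs j N k i hk)
    exact P.disj _ (key false) (key true)
  obtain ⟨K, i, h1, h2⟩ := tree (S := St I a) (Λ := I) (V := E) (fun e => e.1)
    (fun j => {e | mkTop o e ∈ P.H j}) en hyp
  exact ⟨K, i, h1, fun x y hy => h2 x y hy⟩

/-- The coordinates over `(·, b)`. -/
def cb (x : Sb I o) : I ⊕ E → E ⊕ Prop
  | Sum.inl i => Sum.inl (x.2.1 i)
  | Sum.inr a => Sum.inr (x.1 = some a)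

/-- The decision tree over `(·, b)`. -/
theorem Pair.treeSide (P : Pair (I := I) o) (b : Finset I) :
    ∃ (K : Sb I o → Finset (I ⊕ E)) (i : Sb I o → Bool),
      (∀ x y, (∀ l ∈ K x, cb y l = cb x l) → K y = K x ∧ i y = i x) ∧
      (∀ x y, mkSide o b y ∈ P.H (!(i x)) → ∃ l ∈ K x, cb y l ≠ cb x l) := by
  classical
  have hen : ∀ e : Sb I o, ∃ f : ℕ → Finset (I ⊕ E),
      (∀ i, e.2.1 i ≠ o → ∃ k, Sum.inl i ∈ f k) ∧ (∀ a, e.1 = some a → ∃ k, Sum.inr a ∈ f k) := by
    intro e
    have hA : ((Sum.inl '' {i | e.2.1 i ≠ o}) ∪ (Sum.inr '' {a | e.1 = some a}) :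
        Set (I ⊕ E)).Countable := by
      refine (e.2.2.image _).union (Set.Countable.image ?_ _)
      refine Set.Subsingleton.countable ?_
      intro a ha a' ha'
      have h1 : e.1 = some a := ha
      have h2 : e.1 = some a' := ha'
      rw [h1] at h2
      exact Option.some.inj h2
    obtain ⟨f, hf⟩ := exists_en hA
    exact ⟨f, fun i hi => hf _ (Or.inl ⟨i, hi, rfl⟩), fun a ha => hf _ (Or.inr ⟨a, ha, rfl⟩)⟩
  choose en hen1 hen2 using hen
  have hyp : ∀ (x : Sb I o) (F : ℕ → Finset (I ⊕ E)) (h : Bool → ℕ → Sb I o), Monotone F →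
      (∀ j n, mkSide o b (h j n) ∈ P.H j) → (∀ j n, ∀ l ∈ F n, cb (h j n) l = cb x l) →
      (∀ j m k, ∀ l ∈ en (h j m) k, ∃ n, l ∈ F n) → False := by
    intro x F h hF hH hc hs
    let e : I → E := fun i => if ∃ n, Sum.inl i ∈ F n then x.2.1 i else o
    have he : {i | e i ≠ o}.Countable := by
      refine x.2.2.mono fun i hi => ?_
      by_cases hi' : ∃ n, Sum.inl i ∈ F n
      · have h1 : e i ≠ o := hi
        simp only [e, hi', if_true] at h1
        exact h1
      · exact (hi (by simp only [e, hi', if_false])).elim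
    -- the limit point
    have hlim : ∃ α : Option E, (∀ a, α = some a → x.1 = some a ∧ ∃ n, Sum.inr a ∈ F n) ∧
        (∀ a, x.1 = some a → (∃ n, Sum.inr a ∈ F n) → α = some a) := by
      by_cases hα : ∃ a, x.1 = some a ∧ ∃ n, Sum.inr a ∈ F n
      · obtain ⟨a, ha, hn⟩ := hα
        refine ⟨some a, fun a' h' => ?_, fun a' h' _ => ?_⟩
        · cases Option.some.inj h'
          exact ⟨ha, hn⟩
        · rw [← h', ha]
      · refine ⟨none, fun a' h' => (by simp at h'), fun a' h' h'' => ?_⟩
        exact (hα ⟨a', h', h''⟩).elim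
    obtain ⟨α, hα1, hα2⟩ := hlim
    have key : ∀ j, mkSide o b (α, ⟨e, he⟩) ∈ P.H j := by
      intro j
      refine P.mem_of_near fun F' G' => ?_
      have h3 : ∀ l : I ⊕ E, ∃ n, (∃ m, l ∈ F m) → l ∈ F n := by
        intro l
        by_cases hi : ∃ m, l ∈ F m
        · obtain ⟨m, hm⟩ := hi
          exact ⟨m, fun _ => hm⟩
        · exact ⟨0, fun h => (hi h).elim⟩
      choose n hn using h3
      let N := (F'.sup fun i => n (Sum.inl i)) ⊔ (G'.sup fun a => n (Sum.inr a)) ⊔
        (α.elim 0 fun a => n (Sum.inr a))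
      have hN1 : ∀ i ∈ F', (∃ m, Sum.inl i ∈ F m) → Sum.inl i ∈ F N := by
        intro i hi h
        refine hF (?_ : n (Sum.inl i) ≤ N) (hn _ h)
        exact le_trans (le_trans (Finset.le_sup (f := fun i => n (Sum.inl i)) hi) le_sup_left)
          le_sup_left
      have hN2 : ∀ a ∈ G', (∃ m, Sum.inr a ∈ F m) → Sum.inr a ∈ F N := by
        intro a ha h
        refine hF (?_ : n (Sum.inr a) ≤ N) (hn _ h)
        exact le_trans (le_trans (Finset.le_sup (f := fun a => n (Sum.inr a)) ha) le_sup_right)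
          le_sup_left
      have hN3 : ∀ a, α = some a → Sum.inr a ∈ F N := by
        intro a ha
        refine hF (?_ : n (Sum.inr a) ≤ N) (hn _ (hα1 a ha).2)
        refine le_trans ?_ le_sup_right
        rw [ha]
        exact le_rfl
      have hin : ∀ i ∈ F', (h j N).2.1 i = e i := by
        intro i hi
        by_cases hi' : ∃ m, Sum.inl i ∈ F m
        · have h4 : Sum.inl i ∈ F N := hN1 i hi hi'
          simp only [e, hi', if_true]
          exact Sum.inl.inj (hc j N _ h4)
        · simp only [e, hi', if_false]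
          by_contra hne
          obtain ⟨k, hk⟩ := hen1 (h j N) i hne
          exact hi' (hs j N k _ hk)
      have hinr : ∀ a, Sum.inr a ∈ F N → ((h j N).1 = some a ↔ x.1 = some a) := by
        intro a ha
        have h5 := Sum.inr.inj (hc j N _ ha)
        rw [h5]
      refine ⟨mkSide o b (h j N), hH j N, ?_, ?_⟩
      · cases hα : α with
        | some a =>
          have h4 : (h j N).1 = some a := (hinr a (hN3 a hα)).2 (hα1 a hα).1
          rcases hp : h j N with ⟨p1, p2⟩
          rw [hp] at h4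
          have h4' : p1 = some a := h4
          subst h4'
          exact rfl
        | none =>
          rcases hp : h j N with ⟨p1, p2⟩
          cases p1 with
          | none => exact Or.inl rfl
          | some a =>
            refine Or.inr ⟨a, fun hG => ?_, rfl⟩
            have h5 : ∃ m, Sum.inr a ∈ F m := by
              obtain ⟨k, hk⟩ := hen2 (h j N) a (by rw [hp])
              exact hs j N k _ hk
            have h6 := (hinr a (hN2 a hG h5)).1 (by rw [hp])
            have h7 := hα2 a h6 h5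
            rw [hα] at h7
            exact absurd h7 (by simp)
      · intro i hi
        have h8 : (mkSide o b (h j N)).1.2 = (h j N).2.1 := by
          obtain ⟨p1, p2⟩ := h j N
          cases p1 <;> rfl
        have h9 : (mkSide o b (α, ⟨e, he⟩)).1.2 = e := by
          cases α <;> rfl
        rw [h8, h9]
        exact hin i hi
    exact P.disj _ (key false) (key true)
  obtain ⟨K, i, h1, h2⟩ := tree (S := Sb I o) (Λ := I ⊕ E) (V := E ⊕ Prop) cb
    (fun j => {e | mkSide o b e ∈ P.H j}) en hyp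
  exact ⟨K, i, h1, fun x y hy => h2 x y hy⟩

theorem bnot_eq_of_ne {a j : Bool} (h : ¬ a = j) : (!a) = j := by
  cases a <;> cases j <;> simp_all

omit [TopologicalSpace E] [DiscreteTopology E] in
theorem mkTop_of_eq {x : Good (I := I) o} {a : E} (h : x.1.1 = Pt.top a) :
    ∃ e : St I a, x = mkTop o e ∧ e.1 = x.1.2 := by
  obtain ⟨⟨z, e⟩, he⟩ := x
  have h' : z = Pt.top a := h
  subst h'
  exact ⟨⟨e, he⟩, rfl, rfl⟩

omit [TopologicalSpace E] [DiscreteTopology E] in
theorem mkSide_of_side {x : Good (I := I) o} {b : Finset I} (h : x.1.1 = Pt.side b) :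
    ∃ e : Sb I o, x = mkSide o b e ∧ e.2.1 = x.1.2 ∧ e.1 = none := by
  obtain ⟨⟨z, e⟩, he⟩ := x
  have h' : z = Pt.side b := h
  subst h'
  exact ⟨(none, ⟨e, he⟩), rfl, rfl, rfl⟩

omit [TopologicalSpace E] [DiscreteTopology E] in
theorem mkSide_of_iso {x : Good (I := I) o} {a : E} {b : Finset I} (h : x.1.1 = Pt.iso a b) :
    ∃ e : Sb I o, x = mkSide o b e ∧ e.2.1 = x.1.2 ∧ e.1 = some a := by
  obtain ⟨⟨z, e⟩, he⟩ := x
  have h' : z = Pt.iso a b := h
  subst h'
  exact ⟨(some a, ⟨e, he⟩), rfl, rfl, rfl⟩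

/-- The dense subspace is normal. -/
theorem normalSpace_good [Uncountable I] : NormalSpace (Good (I := I) o) := by
  classical
  refine ⟨fun A B hA hB hAB => ?_⟩
  let P : Pair (I := I) o :=
    { H := fun j => if j then B else A
      closed := fun j => by cases j with
        | false => exact hA
        | true => exact hB
      disj := fun x h1 h2 => Set.disjoint_left.1 hAB h1 h2 }
  have hPA : P.H false = A := rfl
  have hPB : P.H true = B := rfl
  have hT := fun a => P.treeTop a
  choose KT iT hT1 hT2 using hT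
  have hS := fun b => P.treeSide b
  choose KS iS hS1 hS2 using hS
  -- the neighbourhoods of the points over `(a, ∞)`
  have hM : ∀ (a : E) (e : St I a), ∃ M : Finset I, KT a e ⊆ M ∧ (∃ i ∈ M, e.1 i = a) ∧
      ∀ y : Good (I := I) o, (y.1.1 = Pt.top a ∨ ∃ b, M ⊆ b ∧ y.1.1 = Pt.iso a b) →
        (∀ i ∈ M, y.1.2 i = e.1 i) → y ∉ P.H (!(iT a e)) := by
    intro a e
    have h1 : mkTop o e ∉ P.H (!(iT a e)) := by
      intro hc
      obtain ⟨l, _, hl⟩ := hT2 a e e hc
      exact hl rfl
    obtain ⟨F, G, h2⟩ := (isOpen_iff_near o).1 (P.closed (!(iT a e))).isOpen_compl _ h1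
    obtain ⟨i, hi⟩ : ∃ i, e.1 i = a := by
      by_contra hcon
      push Not at hcon
      have h3 : {i | e.1 i ≠ a} = univ := by
        ext i
        simpa using hcon i
      have h4 := e.2
      rw [h3] at h4
      exact not_countable (Set.countable_univ_iff.1 h4)
    refine ⟨insert i (KT a e ∪ F), ?_, ⟨i, Finset.mem_insert_self _ _, hi⟩, ?_⟩
    · exact Finset.subset_union_left.trans (Finset.subset_insert _ _)
    · intro y hy1 hy2
      refine h2 y ?_ fun i' hi' => hy2 i' (Finset.mem_insert_of_mem (Finset.mem_union_right _ hi'))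
      rcases hy1 with hy1 | ⟨b, hb, hy1⟩
      · exact Or.inl hy1
      · exact Or.inr ⟨b, (Finset.subset_union_right.trans (Finset.subset_insert _ _)).trans hb,
          hy1⟩
  choose M hM1 hM2 hM3 using hM
  let PP : Bool → Set (Good (I := I) o) := fun j =>
    {x | (∃ (a : E) (e : St I a), x = mkTop o e ∧ iT a e = j) ∨
      ∃ (a : E) (b : Finset I) (e : St I a), x.1.1 = Pt.iso a b ∧ iT a e = j ∧ M a e ⊆ b ∧
        ∀ i ∈ M a e, x.1.2 i = e.1 i}
  let QQ : Bool → Set (Good (I := I) o) := fun j =>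
    {x | ∃ (b : Finset I) (y : Sb I o), x = mkSide o b y ∧ iS b y = j}
  have hPopen : ∀ j, IsOpen (PP j) := by
    intro j
    rw [isOpen_iff_near]
    intro x hx
    rcases hx with ⟨a, e, rfl, hj⟩ | ⟨a, b, e, hx1, hj, hb, he⟩
    · refine ⟨M a e, ∅, fun y hy1 hy2 => ?_⟩
      rcases hy1 with hy1 | ⟨b, hb, hy1⟩
      · obtain ⟨e', rfl, he'⟩ := mkTop_of_eq hy1
        refine Or.inl ⟨a, e', rfl, ?_⟩
        rw [(hT1 a e e' fun l hl => hy2 l (hM1 a e hl)).2, hj]
      · exact Or.inr ⟨a, b, e, hy1, hj, hb, hy2⟩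
    · refine ⟨M a e, ∅, fun y hy1 hy2 => ?_⟩
      rw [hx1] at hy1
      exact Or.inr ⟨a, b, e, hy1, hj, hb, fun i hi => by rw [hy2 i hi, he i hi]⟩
  have hPdisj : ∀ x, x ∈ PP false → x ∈ PP true → False := by
    intro x h0 h1
    rcases h0 with ⟨a, e, hx, hj⟩ | ⟨a, b, e, hx1, hj, hb, he⟩
    · rcases h1 with ⟨a', e', hx', hj'⟩ | ⟨a', b', e', hx1', hj', hb', he'⟩
      · rw [hx] at hx'
        have h2 : (Pt.top a : Pt I E) = Pt.top a' := congrArg (fun p => p.1.1) hx'
        injection h2 with h3
        subst h3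
        have h4 : e = e' := Subtype.ext (congrArg (fun p => p.1.2) hx')
        subst h4
        rw [hj] at hj'
        exact absurd hj' (by simp)
      · rw [hx] at hx1'
        exact absurd hx1' (by simp [mkTop])
    · rcases h1 with ⟨a', e', hx', hj'⟩ | ⟨a', b', e', hx1', hj', hb', he'⟩
      · rw [hx'] at hx1
        exact absurd hx1 (by simp [mkTop])
      · rw [hx1] at hx1'
        injection hx1' with h3 h4
        subst h3
        subst h4
        let e2 : I → E := fun i => if i ∈ b then x.1.2 i else a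
        have he2 : {i | e2 i ≠ a}.Countable := by
          refine (Finset.countable_toSet b).mono fun i hi => ?_
          by_contra hib
          exact hi (if_neg hib)
        have h5 : iT a ⟨e2, he2⟩ = iT a e := by
          refine (hT1 a e ⟨e2, he2⟩ fun l hl => ?_).2
          have h6 := hM1 a e hl
          show e2 l = e.1 l
          rw [← he l h6]
          exact if_pos (hb h6)
        have h7 : iT a ⟨e2, he2⟩ = iT a e' := by
          refine (hT1 a e' ⟨e2, he2⟩ fun l hl => ?_).2
          have h6 := hM1 a e' hl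
          show e2 l = e'.1 l
          rw [← he' l h6]
          exact if_pos (hb' h6)
        rw [h5, hj, hj'] at h7
        exact absurd h7 (by simp)
  have hPdisj' : ∀ j x, x ∈ PP j → x ∈ PP (!j) → False := by
    intro j x h1 h2
    cases j with
    | false => exact hPdisj x h1 h2
    | true => exact hPdisj x h2 h1
  have hPH : ∀ j x, x ∈ PP j → x ∈ P.H (!j) → False := by
    intro j x hx hH
    rcases hx with ⟨a, e, rfl, hj⟩ | ⟨a, b, e, hx1, hj, hb, he⟩
    · subst hj
      exact hM3 a e _ (Or.inl rfl) (fun _ _ => rfl) hH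
    · subst hj
      exact hM3 a e _ (Or.inr ⟨b, hb, hx1⟩) he hH
  have hQopen : ∀ j, IsOpen (QQ j \ PP (!j)) := by
    intro j
    rw [isOpen_iff_near]
    rintro x ⟨⟨b, y, hx, hj⟩, hxP⟩
    let F : Finset I := b ∪ (KS b y).toLeft
    let G : Finset E := b.image x.1.2 ∪ (KS b y).toRight
    have hF : ∀ i, Sum.inl i ∈ KS b y → i ∈ F := fun i hi =>
      Finset.mem_union_right _ (Finset.mem_toLeft.2 hi)
    have hG : ∀ a, Sum.inr a ∈ KS b y → a ∈ G := fun i hi =>
      Finset.mem_union_right _ (Finset.mem_toRight.2 hi)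
    refine ⟨F, G, fun x' hx1 hx2 => ?_⟩
    have hxy : x.1.2 = y.2.1 := by
      rw [hx]
      obtain ⟨p1, p2⟩ := y
      cases p1 <;> rfl
    rcases hp : y.1 with _ | a
    · have hz : x.1.1 = Pt.side b := by
        rw [hx]
        obtain ⟨p1, p2⟩ := y
        cases hp
        rfl
      rw [hz] at hx1
      have hex : ∃ y' : Sb I o, x' = mkSide o b y' ∧ y'.2.1 = x'.1.2 ∧
          ∀ a, y'.1 = some a → a ∉ G := by
        rcases hx1 with hx1 | ⟨a, ha, hx1⟩
        · obtain ⟨y', h1, h2, h3⟩ := mkSide_of_side hx1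
          exact ⟨y', h1, h2, fun a ha => by rw [h3] at ha; exact absurd ha (by simp)⟩
        · obtain ⟨y', h1, h2, h3⟩ := mkSide_of_iso hx1
          exact ⟨y', h1, h2, fun a' ha' => by
            rw [h3] at ha'
            cases ha'
            exact ha⟩
      obtain ⟨y', hy', hy2, hy3⟩ := hex
      refine ⟨⟨b, y', hy', ?_⟩, ?_⟩
      · rw [← hj]
        refine (hS1 b y y' fun l hl => ?_).2
        cases l with
        | inl i =>
          have h1 : y'.2.1 i = y.2.1 i := by
            rw [hy2, ← hxy]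
            exact hx2 i (hF i hl)
          show Sum.inl (y'.2.1 i) = Sum.inl (y.2.1 i)
          rw [h1]
        | inr a =>
          show (Sum.inr (y'.1 = some a) : E ⊕ Prop) = Sum.inr (y.1 = some a)
          have h1 : y'.1 ≠ some a := fun hc => hy3 a hc (hG a hl)
          have h2 : y.1 ≠ some a := by rw [hp]; simp
          simp only [h1, h2]
      · rintro (⟨a, e, h1, _⟩ | ⟨a, b', e, h1, h2, h3, h4⟩)
        · rw [h1] at hx1
          rcases hx1 with hx1 | ⟨a', _, hx1⟩
          · exact absurd hx1 (by simp [mkTop])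
          · exact absurd hx1 (by simp [mkTop])
        · rcases hx1 with hx1 | ⟨a', ha', hx1⟩
          · rw [hx1] at h1
            exact absurd h1 (by simp)
          · rw [hx1] at h1
            injection h1 with h5 h6
            subst h5
            subst h6
            obtain ⟨i, hi, hia⟩ := hM2 a' e
            apply ha'
            refine Finset.mem_union_left _ (Finset.mem_image.2 ⟨i, h3 hi, ?_⟩)
            rw [← hx2 i (Finset.mem_union_left _ (h3 hi)), h4 i hi, hia]
    · have hz : x.1.1 = Pt.iso a b := by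
        rw [hx]
        obtain ⟨p1, p2⟩ := y
        cases hp
        rfl
      rw [hz] at hx1
      have hx1' : x'.1.1 = Pt.iso a b := hx1
      obtain ⟨y', h1, h2, h3⟩ := mkSide_of_iso hx1'
      refine ⟨⟨b, y', h1, ?_⟩, ?_⟩
      · rw [← hj]
        refine (hS1 b y y' fun l hl => ?_).2
        cases l with
        | inl i =>
          have h1 : y'.2.1 i = y.2.1 i := by
            rw [h2, ← hxy]
            exact hx2 i (hF i hl)
          show Sum.inl (y'.2.1 i) = Sum.inl (y.2.1 i)
          rw [h1]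
        | inr a' =>
          show (Sum.inr (y'.1 = some a') : E ⊕ Prop) = Sum.inr (y.1 = some a')
          rw [h3, hp]
      · rintro (⟨a', e, h1, _⟩ | ⟨a', b', e, h4, h5, h6, h7⟩)
        · rw [h1] at hx1'
          exact absurd hx1' (by simp [mkTop])
        · rw [hx1'] at h4
          injection h4 with h8 h9
          subst h8
          subst h9
          refine hxP (Or.inr ⟨a, b, e, hz, h5, h6, fun i hi => ?_⟩)
          rw [← h7 i hi]
          exact (hx2 i (Finset.mem_union_left _ (h6 hi))).symm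
  have hcov : ∀ j, P.H j ⊆ PP j ∪ (QQ j \ PP (!j)) := by
    intro j x hx
    rcases hz : x.1.1 with ⟨a, b⟩ | a | b
    · obtain ⟨y, rfl, h2, h3⟩ := mkSide_of_iso hz
      refine Or.inr ⟨⟨b, y, rfl, ?_⟩, fun hc => hPH (!j) _ hc (by rw [Bool.not_not]; exact hx)⟩
      by_contra hne
      have h4 : (!(iS b y)) = j := bnot_eq_of_ne hne
      obtain ⟨l, _, hl⟩ := hS2 b y y (by rw [h4]; exact hx)
      exact hl rfl
    · obtain ⟨e, rfl, _⟩ := mkTop_of_eq hz
      refine Or.inl (Or.inl ⟨a, e, rfl, ?_⟩)
      by_contra hne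
      have h4 : (!(iT a e)) = j := bnot_eq_of_ne hne
      exact hM3 a e _ (Or.inl rfl) (fun _ _ => rfl) (by rw [h4]; exact hx)
    · obtain ⟨y, rfl, h2, h3⟩ := mkSide_of_side hz
      refine Or.inr ⟨⟨b, y, rfl, ?_⟩, fun hc => hPH (!j) _ hc (by rw [Bool.not_not]; exact hx)⟩
      by_contra hne
      have h4 : (!(iS b y)) = j := bnot_eq_of_ne hne
      obtain ⟨l, _, hl⟩ := hS2 b y y (by rw [h4]; exact hx)
      exact hl rfl
  have hQdisj : ∀ x, x ∈ QQ false → x ∈ QQ true → False := by
    rintro x ⟨b, y, h1, h2⟩ ⟨b', y', h1', h2'⟩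
    have h3 : mkSide o b y = mkSide o b' y' := h1.symm.trans h1'
    have h4 : b = b' ∧ y = y' := by
      obtain ⟨p1, p2⟩ := y
      obtain ⟨q1, q2⟩ := y'
      cases p1 with
      | none =>
        cases q1 with
        | none =>
          have h5 : (Pt.side b : Pt I E) = Pt.side b' := congrArg (fun p => p.1.1) h3
          have h6 : p2.1 = q2.1 := congrArg (fun p => p.1.2) h3
          injection h5 with h7
          exact ⟨h7, by rw [Subtype.ext h6]⟩
        | some a' =>
          have h5 : (Pt.side b : Pt I E) = Pt.iso a' b' := congrArg (fun p => p.1.1) h3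
          exact absurd h5 (by simp)
      | some a =>
        cases q1 with
        | none =>
          have h5 : (Pt.iso a b : Pt I E) = Pt.side b' := congrArg (fun p => p.1.1) h3
          exact absurd h5 (by simp)
        | some a' =>
          have h5 : (Pt.iso a b : Pt I E) = Pt.iso a' b' := congrArg (fun p => p.1.1) h3
          have h6 : p2.1 = q2.1 := congrArg (fun p => p.1.2) h3
          injection h5 with h7 h8
          exact ⟨h8, by rw [Subtype.ext h6, h7]⟩
    obtain ⟨rfl, rfl⟩ := h4
    rw [h2] at h2'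
    exact absurd h2' (by simp)
  refine ⟨PP false ∪ (QQ false \ PP (!false)), PP true ∪ (QQ true \ PP (!true)),
    (hPopen _).union (hQopen _), (hPopen _).union (hQopen _), hcov false, hcov true, ?_⟩
  rw [Set.disjoint_left]
  rintro x (h1 | ⟨h1, h1'⟩) (h2 | ⟨h2, h2'⟩)
  · exact hPdisj x h1 h2
  · exact h2' h1
  · exact h1' h2
  · exact hQdisj x h1 h2

end top

end Q176.NF
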