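import Mathlib
import Pool.Agent.Q176.NF.Normal

/-!
# A normal subspace filling all countable subproducts of a product with a non-normal factor
-/

open Set Filter Topology

namespace Q176.NF

section

variable (I E : Type)

/-- The factors: the plank and `I` copies of the discrete space `E`. -/
def X : Option I → Type
  | none => Pt I E
  | some _ => E

variable {I E} [TopologicalSpace E]

instance instTopX : ∀ i, TopologicalSpace (X I E i)
  | none => inferInstanceAs (TopologicalSpace (Pt I E))
  | some _ => inferInstanceAs (TopologicalSpace E)

instance instT2X [DiscreteTopology E] [Infinite I] : ∀ i, T2Space (X I E i)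
  | none => inferInstanceAs (T2Space (Pt I E))
  | some _ => inferInstanceAs (T2Space E)

instance instCRX [DiscreteTopology E] [Infinite I] : ∀ i, CompletelyRegularSpace (X I E i)
  | none => inferInstanceAs (CompletelyRegularSpace (Pt I E))
  | some _ => inferInstanceAs (CompletelyRegularSpace E)

/-- The product as a product of two spaces. -/
def split : (∀ i, X I E i) ≃ₜ Pt I E × (I → E) where
  toFun x := (x none, fun i => x (some i))
  invFun p := fun i => match i with
    | none => p.1
    | some i => p.2 i
  left_inv x := by
    funext i
    cases i <;> rfl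
  right_inv p := rfl
  continuous_toFun := by
    refine Continuous.prodMk (continuous_apply (A := X I E) none) ?_
    exact continuous_pi fun i => continuous_apply (A := X I E) (some i)
  continuous_invFun := by
    refine continuous_pi fun i => ?_
    cases i with
    | none => exact continuous_fst
    | some i => exact (continuous_apply (A := fun _ => E) i).comp continuous_snd

/-- The dense subspace of the product. -/
def D (o : E) : Set (∀ i, X I E i) := {x | split x ∈ Good (I := I) o}

theorem normalSpace_D [DiscreteTopology E] [Uncountable I] (o : E) :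
    NormalSpace (D (I := I) o) := by
  have h := normalSpace_good (I := I) (o := o)
  let e : D (I := I) o ≃ₜ Good (I := I) o := (split (I := I) (E := E)).subtype fun x => Iff.rfl
  exact e.isClosedEmbedding.normalSpace

theorem fills_D [Uncountable I] (o : E) (J : Set (Option I)) (hJ : J.Countable) :
    (fun (x : ∀ i, X I E i) (j : J) => x j) '' (D (I := I) o) =
      (univ : Set (∀ j : J, X I E j)) := by
  classical
  refine eq_univ_of_forall fun x => ?_
  -- extend by the base value
  let z : Pt I E := if h : none ∈ J then x ⟨none, h⟩ else Pt.side ∅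
  let y : ∀ i, X I E i := fun i => match i with
    | none => z
    | some i => if h : some i ∈ J then x ⟨some i, h⟩ else base o z
  refine ⟨y, ?_, ?_⟩
  · show {i | y (some i) ≠ base o z}.Countable
    have h1 : (some ⁻¹' J : Set I).Countable := hJ.preimage (Option.some_injective I)
    refine h1.mono fun i hi => ?_
    by_contra hc
    exact hi (dif_neg hc)
  · funext ⟨i, hi⟩
    cases i with
    | none => exact dif_pos hi
    | some i => exact dif_pos hi

end

/-- The discrete space of sets of sets of natural numbers. -/
def EE : Type := Set (Set ℕ)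

instance : TopologicalSpace EE := ⊥

instance : DiscreteTopology EE := ⟨rfl⟩

theorem hIE (f : Finset (Set ℕ) → Finset EE) : ∃ a, ∀ b, a ∉ f b := by
  by_contra hcon
  push Not at hcon
  have h1 : (univ : Set EE) ⊆ ⋃ b, (f b : Set EE) := fun a _ => by
    obtain ⟨b, hb⟩ := hcon a
    exact mem_iUnion.2 ⟨b, hb⟩
  have h2 : Cardinal.mk EE ≤ Cardinal.mk (Set ℕ) := by
    calc Cardinal.mk EE = Cardinal.mk (univ : Set EE) := Cardinal.mk_univ.symm
      _ ≤ Cardinal.mk (⋃ b, (f b : Set EE)) := Cardinal.mk_le_mk_of_subset h1
      _ ≤ Cardinal.mk (Finset (Set ℕ)) * ⨆ b, Cardinal.mk (f b : Set EE) :=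
          Cardinal.mk_iUnion_le _
      _ ≤ Cardinal.mk (Set ℕ) * Cardinal.mk (Set ℕ) := by
          refine mul_le_mul' (Cardinal.mk_finset_of_infinite _).le ?_
          refine ciSup_le' fun b => ?_
          refine le_trans ?_ (Cardinal.aleph0_le_mk (Set ℕ))
          exact (Cardinal.lt_aleph0_of_finite _).le
      _ = Cardinal.mk (Set ℕ) := Cardinal.mul_eq_self (Cardinal.aleph0_le_mk _)
  have h3 : Cardinal.mk (Set ℕ) < Cardinal.mk EE := by
    have : Cardinal.mk EE = 2 ^ Cardinal.mk (Set ℕ) := Cardinal.mk_set
    rw [this]
    exact Cardinal.cantor _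
  exact absurd h2 (not_le.2 h3)

/-- A normal subspace filling all countable subproducts of a product of completely regular spaces
with a factor that is not normal. -/
theorem normal_fails : ∃ (ι : Type) (X : ι → Type) (_ : ∀ i, TopologicalSpace (X i))
    (D : Set (∀ i, X i)), (∀ i, T2Space (X i) ∧ CompletelyRegularSpace (X i)) ∧
      T1Space (∀ i, X i) ∧
      (∀ J : Set ι, J.Countable →
        (fun (x : ∀ i, X i) (j : J) => x j) '' D = (univ : Set (∀ j : J, X j))) ∧
      T1Space D ∧ NormalSpace D ∧ ∃ i, ¬ NormalSpace (X i) := by
  have : Uncountable (Set ℕ) := by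
    rw [← Cardinal.aleph0_lt_mk_iff, Cardinal.mk_set, Cardinal.mk_nat]
    exact Cardinal.cantor _
  exact ⟨Option (Set ℕ), X (Set ℕ) EE, inferInstance, D (I := Set ℕ) (E := EE) (show EE from (∅ : Set (Set ℕ))),
    fun i => ⟨inferInstance, inferInstance⟩, inferInstance, fun J hJ => fills_D _ J hJ,
    inferInstance, normalSpace_D _, none, Pt.not_normalSpace hIE⟩

end Q176.NF
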